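import Pool.Agent.L5helper98.NG.Defs

/-!
# CVX (by helper57): the masses are a martingale (conditional Jensen)
-/

set_option autoImplicit false

open MeasureTheory ProbabilityTheory Filter Topology Set
open scoped ENNReal

namespace Pool.Agent.L5helper57.NG

open Pool.Agent.L5helper98.NG

/-- the σ-algebra of the fields with index in `T` -/
@[reducible] def Fi {d : ℕ} {Ω : Type} (X : ℕ → Ω → (Fin d → ℝ) → ℝ) (T : Set ℕ) :
    MeasurableSpace Ω := ⨆ k ∈ T, sg X k

section

variable {d : ℕ} {Ω : Type}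

theorem meas_X (X : ℕ → Ω → (Fin d → ℝ) → ℝ) (T : Set ℕ) {k : ℕ} (hk : k ∈ T) (x : Fin d → ℝ) :
    Measurable[Fi X T] (fun o => X k o x) := by
  refine measurable_iff_comap_le.2 ?_
  refine le_trans ?_ (le_iSup₂_of_le (f := fun k (_ : k ∈ T) => sg X k) k hk le_rfl)
  exact le_iSup (fun x : Fin d → ℝ => MeasurableSpace.comap (fun o => X k o x) inferInstance) x

theorem meas_sum (X : ℕ → Ω → (Fin d → ℝ) → ℝ) (T : Set ℕ) (s : Finset ℕ) (hs : ∀ k ∈ s, k ∈ T)
    (x : Fin d → ℝ) : Measurable[Fi X T] (fun o => ∑ k ∈ s, X k o x) :=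
  Finset.measurable_fun_sum s (fun k hk => meas_X X T (hs k hk) x)

theorem joint [MeasurableSpace Ω] (Y : Ω → (Fin d → ℝ) → ℝ) (hc : ∀ o, Continuous (Y o))
    (hm : ∀ x, Measurable (fun o => Y o x)) :
    Measurable (fun p : Ω × (Fin d → ℝ) => Y p.1 p.2) := by
  have h := measurable_uncurry_of_continuous_of_measurable (u := fun x o => Y o x) hc hm
  exact h.comp measurable_swap

theorem joint2 [MeasurableSpace Ω] (Y : Ω → (Fin d → ℝ) → ℝ) (hc : ∀ o, Continuous (Y o))
    (hm : ∀ x, Measurable (fun o => Y o x)) (β : ℝ) (z : (Fin d → ℝ) → ℝ) (hz : Measurable z) :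
    Measurable (fun p : Ω × (Fin d → ℝ) => Real.exp (β * Y p.1 p.2) / z p.2) := by
  have h := joint Y hc hm
  exact (Real.measurable_exp.comp (measurable_const.mul h)).div (hz.comp measurable_snd)

theorem int_meas [MeasurableSpace Ω] (Y : Ω → (Fin d → ℝ) → ℝ) (hc : ∀ o, Continuous (Y o))
    (hm : ∀ x, Measurable (fun o => Y o x)) (β : ℝ) (z : (Fin d → ℝ) → ℝ) (hz : Measurable z)
    (A : Set (Fin d → ℝ)) :
    StronglyMeasurable (fun o => ∫ x in A, Real.exp (β * Y o x) / z x) := by
  have h := (joint2 Y hc hm β z hz).stronglyMeasurable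
  exact MeasureTheory.StronglyMeasurable.integral_prod_right
    (f := fun o x => Real.exp (β * Y o x) / z x) h

end

variable {d : ℕ} {Ω : Type} [mΩ : MeasurableSpace Ω] {P : Measure Ω}
  {X : ℕ → Ω → (Fin d → ℝ) → ℝ}

theorem Fi_le (hX : Fields P X) (T : Set ℕ) : Fi X T ≤ mΩ :=
  iSup₂_le fun k _ => iSup_le fun x => (hX.meas k x).comap_le

theorem S_cont (hX : Fields P X) (n : ℕ) (o : Ω) : Continuous (S X n o) := by
  unfold S
  exact continuous_finsetSum _ fun k _ => hX.cont k o

omit mΩ in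
theorem S_split (n m : ℕ) (hnm : n ≤ m) (o : Ω) (x : Fin d → ℝ) :
    S X m o x = S X n o x + ∑ k ∈ Finset.Ico n m, X k o x := by
  unfold S
  rw [Finset.sum_range_add_sum_Ico _ hnm]

theorem key1 (hX : Fields P X) (β : ℝ) (n m : ℕ) (hnm : n ≤ m) (x : Fin d → ℝ) (s : Set Ω)
    (hs : MeasurableSet[Fi X {k | k < n}] s) :
    ∫⁻ o in s, ENNReal.ofReal (Real.exp (β * S X m o x)) ∂P =
      (∫⁻ o in s, ENNReal.ofReal (Real.exp (β * S X n o x)) ∂P) *
        ∫⁻ o, ENNReal.ofReal (Real.exp (β * ∑ k ∈ Finset.Ico n m, X k o x)) ∂P := by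
  have hle := Fi_le hX {k | k < n}
  have hle2 := Fi_le hX {k | n ≤ k}
  have hsplit : ∀ o, ENNReal.ofReal (Real.exp (β * S X m o x)) =
      ENNReal.ofReal (Real.exp (β * S X n o x)) *
        ENNReal.ofReal (Real.exp (β * ∑ k ∈ Finset.Ico n m, X k o x)) := by
    intro o
    rw [← ENNReal.ofReal_mul (Real.exp_pos _).le, ← Real.exp_add, ← mul_add, S_split n m hnm]
  have hindep : Indep (Fi X {k | k < n}) (Fi X {k | n ≤ k}) P := by
    refine indep_iSup_of_disjoint (fun k => iSup_le fun x => (hX.meas k x).comap_le) hX.indep ?_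
    rw [Set.disjoint_left]
    intro k hk hk'
    exact (not_lt.2 (show n ≤ k from hk')) (show k < n from hk)
  have hSn : Measurable[Fi X {k | k < n}] (fun o => S X n o x) :=
    meas_sum X _ (Finset.range n) (fun k hk => Finset.mem_range.1 hk) x
  have hT : Measurable[Fi X {k | n ≤ k}] (fun o => ∑ k ∈ Finset.Ico n m, X k o x) :=
    meas_sum X _ (Finset.Ico n m) (fun k hk => (Finset.mem_Ico.1 hk).1) x
  have hf : Measurable[Fi X {k | k < n}]
      (fun o => ENNReal.ofReal (Real.exp (β * S X n o x))) :=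
    ENNReal.measurable_ofReal.comp (Real.measurable_exp.comp (hSn.const_mul β))
  have hg : Measurable[Fi X {k | n ≤ k}]
      (fun o => ENNReal.ofReal (Real.exp (β * ∑ k ∈ Finset.Ico n m, X k o x))) :=
    ENNReal.measurable_ofReal.comp (Real.measurable_exp.comp (hT.const_mul β))
  have hfs : Measurable[Fi X {k | k < n}]
      (s.indicator fun o => ENNReal.ofReal (Real.exp (β * S X n o x))) := hf.indicator hs
  have hmul := lintegral_mul_eq_lintegral_mul_lintegral_of_independent_measurableSpace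
    hle hle2 hindep hfs hg
  rw [← lintegral_indicator (hle _ hs), ← lintegral_indicator (hle _ hs), ← hmul]
  refine lintegral_congr fun o => ?_
  by_cases ho : o ∈ s
  · rw [Set.indicator_of_mem ho, Set.indicator_of_mem ho, hsplit]
  · rw [Set.indicator_of_notMem ho, Set.indicator_of_notMem ho, zero_mul]

theorem key2 [IsProbabilityMeasure P] (hZB : St_ZB) (hX : Fields P X) (β : ℝ) (hβ : 0 < β)
    (n m : ℕ) (hnm : n ≤ m) (x : Fin d → ℝ) (hx : x ∈ cube d) (s : Set Ω)
    (hs : MeasurableSet[Fi X {k | k < n}] s) :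
    ∫⁻ o in s, ENNReal.ofReal (Real.exp (β * S X m o x) / Zf P X β m x) ∂P =
      ∫⁻ o in s, ENNReal.ofReal (Real.exp (β * S X n o x) / Zf P X β n x) ∂P := by
  obtain ⟨-, C, -, hZ⟩ := hZB d Ω P X hX β hβ
  have hpos : ∀ n, 0 < Zf P X β n x := fun n => lt_of_lt_of_le (Real.exp_pos _) (hZ n x hx).2.1
  have hmeas : ∀ n, Measurable (fun o => ENNReal.ofReal (Real.exp (β * S X n o x))) := by
    intro n
    have : Measurable (fun o => S X n o x) :=
      (meas_sum X {k | k < n} (Finset.range n) (fun k hk => Finset.mem_range.1 hk) x).mono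
        (Fi_le hX _) le_rfl
    exact ENNReal.measurable_ofReal.comp (Real.measurable_exp.comp (this.const_mul β))
  have hdiv : ∀ n, ∫⁻ o in s, ENNReal.ofReal (Real.exp (β * S X n o x) / Zf P X β n x) ∂P =
      (∫⁻ o in s, ENNReal.ofReal (Real.exp (β * S X n o x)) ∂P) *
        (ENNReal.ofReal (Zf P X β n x))⁻¹ := by
    intro n
    rw [← lintegral_mul_const _ (hmeas n)]
    refine lintegral_congr fun o => ?_
    rw [ENNReal.ofReal_div_of_pos (hpos n), div_eq_mul_inv]
  have hZl : ∀ n, ENNReal.ofReal (Zf P X β n x) =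
      ∫⁻ o, ENNReal.ofReal (Real.exp (β * S X n o x)) ∂P := fun n =>
    ofReal_integral_eq_lintegral_ofReal (hZ n x hx).1 (Eventually.of_forall fun o =>
      (Real.exp_pos _).le)
  have hk := key1 hX β n m hnm x s hs
  have hku := key1 hX β n m hnm x Set.univ MeasurableSet.univ
  rw [Measure.restrict_univ, ← hZl, ← hZl] at hku
  rw [hdiv, hdiv, hk, hku]
  set b := ∫⁻ o, ENNReal.ofReal (Real.exp (β * ∑ k ∈ Finset.Ico n m, X k o x)) ∂P with hb
  have hc0 : ENNReal.ofReal (Zf P X β n x) ≠ 0 := by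
    rw [Ne, ENNReal.ofReal_eq_zero, not_le]
    exact hpos n
  have hcb0 : ENNReal.ofReal (Zf P X β m x) ≠ 0 := by
    rw [Ne, ENNReal.ofReal_eq_zero, not_le]
    exact hpos m
  have hb0 : b ≠ 0 := by
    intro h0
    rw [hku, h0, mul_zero] at hcb0
    exact hcb0 rfl
  have hbt : b ≠ ∞ := by
    intro h0
    rw [h0, ENNReal.mul_top hc0] at hku
    exact ENNReal.ofReal_ne_top hku
  rw [ENNReal.mul_inv (Or.inl hc0) (Or.inl ENNReal.ofReal_ne_top)]
  rw [mul_mul_mul_comm, ENNReal.mul_inv_cancel hb0 hbt, mul_one]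

theorem mass_eq (hMAS : St_MAS) [IsProbabilityMeasure P] (hX : Fields P X) (β : ℝ) (hβ : 0 < β)
    (n : ℕ) (o : Ω) : ENNReal.ofReal (mass P X β (cube d) n o) =
      ∫⁻ x in cube d, ENNReal.ofReal (Real.exp (β * S X n o x) / Zf P X β n x) := by
  obtain ⟨-, -, h, -⟩ := hMAS d Ω P X hX β hβ (cube d) measurableSet_Icc le_rfl n
  unfold mass
  exact ofReal_integral_eq_lintegral_ofReal (h o) (Eventually.of_forall fun x =>
    div_nonneg (Real.exp_pos _).le (integral_nonneg fun _ => (Real.exp_pos _).le))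

theorem key3 (hMAS : St_MAS) (hZB : St_ZB) [IsProbabilityMeasure P] (hX : Fields P X) (β : ℝ)
    (hβ : 0 < β) (n m : ℕ) (hnm : n ≤ m) (s : Set Ω) (hs : MeasurableSet[Fi X {k | k < n}] s) :
    ∫⁻ o in s, ENNReal.ofReal (mass P X β (cube d) m o) ∂P =
      ∫⁻ o in s, ENNReal.ofReal (mass P X β (cube d) n o) ∂P := by
  have hzm := (hZB d Ω P X hX β hβ).1
  have hj : ∀ n, Measurable (fun p : Ω × (Fin d → ℝ) =>
      ENNReal.ofReal (Real.exp (β * S X n p.1 p.2) / Zf P X β n p.2)) := fun n =>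
    ENNReal.measurable_ofReal.comp (joint2 (S X n) (S_cont hX n)
      (fun x => (meas_sum X {k | k < n} (Finset.range n) (fun k hk => Finset.mem_range.1 hk)
        x).mono (Fi_le hX _) le_rfl) β _ (hzm n))
  have hsw : ∀ n, ∫⁻ o in s, ENNReal.ofReal (mass P X β (cube d) n o) ∂P =
      ∫⁻ x in cube d, ∫⁻ o in s, ENNReal.ofReal (Real.exp (β * S X n o x) / Zf P X β n x) ∂P := by
    intro n
    rw [← lintegral_lintegral_swap (f := fun o x =>
      ENNReal.ofReal (Real.exp (β * S X n o x) / Zf P X β n x)) (hj n).aemeasurable]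
    exact lintegral_congr fun o => mass_eq hMAS hX β hβ n o
  rw [hsw, hsw]
  exact setLIntegral_congr_fun measurableSet_Icc fun x hx => key2 hZB hX β hβ n m hnm x hx s hs

theorem CVX_holds (hMAS : St_MAS) (hZB : St_ZB) : St_CVX := by
  intro d Ω _ P _ X hX β hβ φ hφ hφ0 hK n m hnm
  obtain ⟨K, hK⟩ := hK
  have hle := Fi_le hX {k | k < n}
  have hφc : Continuous φ := by
    refine (LipschitzWith.of_dist_le_mul (K := K.toNNReal) fun x y => ?_).continuous
    rw [Real.dist_eq, Real.dist_eq]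
    exact (hK x y).trans (mul_le_mul_of_nonneg_right (Real.le_coe_toNNReal K) (abs_nonneg _))
  have hM := fun n => hMAS d Ω P X hX β hβ (cube d) measurableSet_Icc le_rfl n
  have hint : ∀ n, Integrable (mass P X β (cube d) n) P := by
    intro n
    refine ⟨(hM n).1.aestronglyMeasurable, ?_⟩
    rw [hasFiniteIntegral_iff_ofReal (Eventually.of_forall (hM n).2.1), (hM n).2.2.2]
    exact isCompact_Icc.measure_lt_top
  have hφint : ∀ n, Integrable (φ ∘ mass P X β (cube d) n) P := by
    intro n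
    refine Integrable.mono' ((integrable_const (φ 0)).add ((hint n).abs.const_mul K))
      (hφc.comp_aestronglyMeasurable (hint n).1) (Eventually.of_forall fun o => ?_)
    have h1 := hK (mass P X β (cube d) n o) 0
    rw [sub_zero] at h1
    have h2 := le_abs_self (φ (mass P X β (cube d) n o) - φ 0)
    rw [Function.comp_apply, Real.norm_eq_abs, abs_of_nonneg (hφ0 _)]
    simp only [Pi.add_apply]
    linarith
  have hcond : mass P X β (cube d) n =ᵐ[P] P[mass P X β (cube d) m | Fi X {k | k < n}] := by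
    refine ae_eq_condExp_of_forall_setIntegral_eq hle (hint m) (fun s _ _ => (hint n).integrableOn)
      (fun s hs _ => ?_) ?_
    · rw [integral_eq_lintegral_of_nonneg_ae (Eventually.of_forall (hM n).2.1)
        (hM n).1.aestronglyMeasurable, integral_eq_lintegral_of_nonneg_ae
        (Eventually.of_forall (hM m).2.1) (hM m).1.aestronglyMeasurable,
        key3 hMAS hZB hX β hβ n m hnm s hs]
    · refine StronglyMeasurable.aestronglyMeasurable ?_
      exact @int_meas d Ω (Fi X {k | k < n}) (S X n) (S_cont hX n)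
        (fun x => meas_sum X {k | k < n} (Finset.range n) (fun k hk => Finset.mem_range.1 hk) x) β _
        ((hZB d Ω P X hX β hβ).1 n) (cube d)
  have hJ := ConvexOn.map_condExp_le_univ (m := Fi X {k | k < n}) hle hφ
    hφc.lowerSemicontinuous (hint m) (hφint m)
  calc ∫ o, φ (mass P X β (cube d) n o) ∂P
      ≤ ∫ o, (P[φ ∘ mass P X β (cube d) m | Fi X {k | k < n}]) o ∂P := by
        refine integral_mono_ae (hφint n) integrable_condExp ?_
        filter_upwards [hcond, hJ] with o h1 h2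
        rw [Function.comp_apply] at h2
        rw [h1]
        exact h2
    _ = ∫ o, φ (mass P X β (cube d) m o) ∂P := by
        rw [integral_condExp hle]
        rfl

end Pool.Agent.L5helper57.NG
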